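import Pool.Agent.W886.AM.Stm0

/-!
Project AM, statement S_CLEAN: a random oracle is clean.
-/

set_option autoImplicit false

namespace Pool.Agent.W209.AMClean

open Pool.Agent.NPC Pool.Agent.H620R2.Gauge Pool.Agent.W900.RB Pool.Agent.W886.AM
open Pool.Agent.H628R3.RO (randomOracle)
open MeasureTheory Filter

theorem bl_inj {n : ℕ} {w u : List Bool} {i j : ℕ} (h : bl n w u i = bl n w u j) : i = j := by
  have h1 := congrArg List.length h
  unfold bl at h1
  simp only [length_reg, List.length_cons, List.length_append, List.length_replicate] at h1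
  omega

theorem prob_one {m : ℕ} (pos : Fin m → List Bool) (hpos : Function.Injective pos) :
    randomOracle {O | ∀ j, O (pos j) = true} ≤ (2⁻¹ : ENNReal) ^ m := by
  classical
  refine (prob_le pos hpos (fun a => ∀ i, a i = true) ((1 / 2) ^ m) ?_).trans (le_of_eq ?_)
  · have h2 : (Finset.univ.filter fun a : Fin m → Bool => ∀ i, a i = true) = {fun _ => true} := by
      ext a
      simp only [Finset.mem_filter, Finset.mem_univ, true_and, Finset.mem_singleton]
      exact ⟨fun h => funext h, fun h i => by rw [h]⟩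
    have h3 : ((Finset.univ.filter fun a : Fin m → Bool => ∀ i, a i = true).card : ℝ) = 1 := by
      rw [h2]
      simp
    refine le_trans (le_of_eq ?_) (le_refl (1 : ℝ)) |>.trans (le_of_eq ?_)
    · rw [← h3]
      refine congrArg Nat.cast (congrArg Finset.card ?_)
      ext a
      simp only [Finset.mem_filter, Finset.mem_univ, true_and]
    · rw [Fintype.card_fin, ← mul_pow]
      norm_num
  · rw [ENNReal.ofReal_pow (by norm_num)]
    congr 1
    rw [one_div, ENNReal.ofReal_inv_of_pos (by norm_num)]
    simp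

theorem geo (m : ℕ) : ∑ r ∈ Finset.range m, 2 ^ r + 1 = 2 ^ m := by
  induction m with
  | zero => simp
  | succ m ih =>
    rw [Finset.sum_range_succ, pow_succ]
    omega

theorem task : S_CLEAN := by
  classical
  have hms : ∀ n, randomOracle {O | ¬ Clean O n} ≤ 2 * (2⁻¹ : ENNReal) ^ n := by
    intro n
    have h1 : {O : Oracle | ¬ Clean O n} ⊆ ⋃ r : Fin (n + 1), ⋃ w : Fin r → Bool,
        ⋃ u : Fin n → Bool,
          {O | ∀ j : Fin (3 * n), O (bl n (List.ofFn w) (List.ofFn u) j) = true} := by
      intro O hO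
      have hO' : ¬ Clean O n := hO
      unfold Clean at hO'
      push Not at hO'
      obtain ⟨r, hr, w, u, hw, hu, h⟩ := hO'
      subst hw
      subst hu
      simp only [Set.mem_iUnion, Set.mem_ofPred_eq]
      refine ⟨⟨w.length, by omega⟩, w.get, u.get, fun j => ?_⟩
      rw [List.ofFn_get, List.ofFn_get]
      have := h j.val j.isLt
      simpa using this
    have h2 : ∀ (r : Fin (n + 1)) (w : Fin r → Bool) (u : Fin n → Bool),
        randomOracle {O | ∀ j : Fin (3 * n), O (bl n (List.ofFn w) (List.ofFn u) j) = true} ≤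
          (2⁻¹ : ENNReal) ^ (3 * n) := fun r w u =>
      prob_one (fun j : Fin (3 * n) => bl n (List.ofFn w) (List.ofFn u) j)
        fun i j hij => Fin.ext (bl_inj hij)
    refine (measure_mono h1).trans ?_
    refine (measure_iUnion_fintype_le _ _).trans ?_
    have h3 : ∀ r : Fin (n + 1), randomOracle (⋃ w : Fin r → Bool, ⋃ u : Fin n → Bool,
          {O | ∀ j : Fin (3 * n), O (bl n (List.ofFn w) (List.ofFn u) j) = true}) ≤
        (2 : ENNReal) ^ (r : ℕ) * (2 ^ n * (2⁻¹ : ENNReal) ^ (3 * n)) := by
      intro r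
      refine (measure_iUnion_fintype_le _ _).trans ?_
      refine (Finset.sum_le_sum fun w _ => (measure_iUnion_fintype_le _ _).trans
        (Finset.sum_le_sum fun u _ => h2 r w u)).trans (le_of_eq ?_)
      simp only [Finset.sum_const, Finset.card_univ, Fintype.card_fun, Fintype.card_bool,
        Fintype.card_fin, nsmul_eq_mul]
      push_cast
      rfl
    refine (Finset.sum_le_sum fun r _ => h3 r).trans ?_
    rw [← Finset.sum_mul]
    have h4 : ∑ r : Fin (n + 1), (2 : ENNReal) ^ (r : ℕ) ≤ 2 ^ (n + 1) := by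
      rw [Fin.sum_univ_eq_sum_range (fun r => (2 : ENNReal) ^ r) (n + 1)]
      have := geo (n + 1)
      have h5 : ∑ r ∈ Finset.range (n + 1), 2 ^ r ≤ 2 ^ (n + 1) := by omega
      exact_mod_cast h5
    refine (mul_le_mul_left h4 _).trans (le_of_eq ?_)
    have h6 : (2 : ENNReal) ^ n * (2⁻¹) ^ n = 1 := by
      rw [← mul_pow, ENNReal.mul_inv_cancel (by norm_num) (by norm_num), one_pow]
    calc (2 : ENNReal) ^ (n + 1) * (2 ^ n * (2⁻¹) ^ (3 * n))
        = 2 * (2 ^ n * (2⁻¹) ^ n) * (2 ^ n * (2⁻¹) ^ n) * (2⁻¹) ^ n := by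
          rw [show 3 * n = n + n + n by ring, pow_add, pow_add, pow_succ]
          ring
      _ = 2 * (2⁻¹) ^ n := by rw [h6, mul_one, mul_one]
  have hsum : ∑' n, randomOracle {O | ¬ Clean O n} ≠ ⊤ := by
    refine ne_top_of_le_ne_top ?_ (ENNReal.tsum_le_tsum hms)
    rw [ENNReal.tsum_mul_left, ENNReal.tsum_geometric]
    simp [ENNReal.mul_eq_top]
  filter_upwards [ae_eventually_notMem hsum] with O hO
  filter_upwards [hO] with n hn
  by_contra h
  exact hn h

end Pool.Agent.W209.AMClean
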